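import Mathlib

/-!
# MP_74a3a5: the toroidal grid graph `TGr_{3,5}` is 3-word-representable

Hence the representation number of a toroidal grid graph `TGr_{m,n}`, `m, n ≥ 3`, `m + n ≥ 8`, can be
at most `3`.
-/

set_option autoImplicit false

namespace Pool.Agent.Results.MP_74a3a5_co.ThreeByFive

/-- The toroidal grid graph `TGr_{m,n} = C_m □ C_n` (for `m, n ≥ 3`), on the vertices `x_{i,j}`,
`i` modulo `m`, `j` modulo `n`. -/
def TGr (m n : ℕ) : SimpleGraph (ZMod m × ZMod n) where
  Adj p q := p ≠ q ∧ ((p.2 = q.2 ∧ (q.1 - p.1 = 1 ∨ q.1 - p.1 = -1)) ∨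
    (p.1 = q.1 ∧ (q.2 - p.2 = 1 ∨ q.2 - p.2 = -1)))
  symm := by
    refine ⟨?_⟩
    rintro p q ⟨h0, h⟩
    refine ⟨h0.symm, ?_⟩
    rcases h with ⟨h1, h2 | h2⟩ | ⟨h1, h2 | h2⟩
    · exact Or.inl ⟨h1.symm, Or.inr (by rw [← neg_sub, h2])⟩
    · exact Or.inl ⟨h1.symm, Or.inl (by rw [← neg_sub, h2, neg_neg])⟩
    · exact Or.inr ⟨h1.symm, Or.inr (by rw [← neg_sub, h2])⟩
    · exact Or.inr ⟨h1.symm, Or.inl (by rw [← neg_sub, h2, neg_neg])⟩
  loopless := ⟨fun p h => h.1 rfl⟩

/-- The letters `x` and `y` alternate in `w`: after deleting all other letters no two consecutive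
letters are equal, i.e. the remaining word has the form `xyxy...` or `yxyx...`. -/
def Alternate {V : Type} [DecidableEq V] (w : List V) (x y : V) : Prop :=
  (w.filter fun z => z = x ∨ z = y).IsChain (· ≠ ·)

/-- `G` is `k`-word-representable: for some word in which every vertex occurs exactly `k` times, any
two distinct vertices alternate in the word if and only if they are adjacent. -/
def IsKRepresentable {V : Type} [DecidableEq V] (G : SimpleGraph V) (k : ℕ) : Prop :=
  ∃ w : List V, (∀ v, w.count v = k) ∧ ∀ x y, x ≠ y → (Alternate w x y ↔ G.Adj x y)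

/-- The representation number: the least `k ≥ 1` for which `G` is `k`-word-representable. -/
noncomputable def reprNumber {V : Type} [DecidableEq V] (G : SimpleGraph V) : ℕ :=
  sInf {k : ℕ | 1 ≤ k ∧ IsKRepresentable G k}

/-- A word representing `TGr_{3,5}`; the number `i + 3 j` stands for the vertex `x_{i,j}`. -/
def code : List ℕ :=
  [0, 3, 14, 11, 2, 13, 8, 10, 12, 14, 1, 13, 5, 7, 9, 0, 2, 4, 1, 12, 6, 3, 0, 11, 14, 10, 13, 9,
    12, 8, 11, 7, 10, 6, 9, 5, 8, 4, 7, 3, 6, 2, 5, 1, 4]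

/-- The same word over the vertex set of `TGr_{3,5}`. -/
def word : List (ZMod 3 × ZMod 5) :=
  code.map fun c : ℕ => (((c : ℕ) : ZMod 3), (((c / 3 : ℕ)) : ZMod 5))

instance {V : Type} [DecidableEq V] (w : List V) (x y : V) : Decidable (Alternate w x y) := by
  unfold Alternate; infer_instance

instance (m n : ℕ) (p q : ZMod m × ZMod n) : Decidable ((TGr m n).Adj p q) := by
  unfold TGr; infer_instance

/-- `TGr_{3,5}` is 3-word-representable. -/
theorem three_five : IsKRepresentable (TGr 3 5) 3 := by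
  refine ⟨word, ?_, ?_⟩
  · decide +kernel
  · decide +kernel

/-- The answer to Q1 is negative: it is not true that `R(TGr_{m,n}) ≥ 4` for all `m, n ≥ 3` with
`m + n ≥ 8` (it fails for `m = 3`, `n = 5`). -/
theorem result : ¬ ∀ m n : ℕ, 3 ≤ m → 3 ≤ n → 8 ≤ m + n → 4 ≤ reprNumber (TGr m n) := by
  intro h
  have h1 := h 3 5 (by norm_num) (by norm_num) (by norm_num)
  have h2 : reprNumber (TGr 3 5) ≤ 3 := Nat.sInf_le ⟨by norm_num, three_five⟩
  omega

end Pool.Agent.Results.MP_74a3a5_co.ThreeByFive
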